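import Mathlib
import Pool.Agent.V11243.NamesNW
import Pool.Agent.V11243.GenericX
import Pool.Agent.V11243.OracleX
import Pool.Agent.V11243.TOp

/-!
# An introreducible set that is not a finite union of uniformly introreducible sets

`A = {⟨i, (X ↾ n)[i := 0]⟩ : i < n}` for a sufficiently generic `X : ℕ → ℕ`.
-/

namespace Pool.Agent.Results.MP_4a6649_lc.NotFiniteUnion

open Pool.Agent.V11243.GenericX Pool.Agent.V11243.OracleX Pool.Agent.V11243.TOp

/-- `Φ^C = A`: the Turing operator `Φ` with oracle (the characteristic function of) `C` computes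
the characteristic function of `A`. -/
def Computes (Φ : TuringOp) (C A : Set ℕ) : Prop :=
  ∀ n, Φ.eval (chi C) n = Part.some (chi A n)

/-- `A` is uniformly introreducible: `A` is infinite and one Turing operator computes `A` from
every infinite subset of `A`. -/
def UniformlyIntroreducible (A : Set ℕ) : Prop :=
  A.Infinite ∧ ∃ Φ : TuringOp, ∀ C ⊆ A, C.Infinite → Computes Φ C A

/-- `A` is introreducible (with Mathlib's Turing reducibility). -/
def Introreducible (A : Set ℕ) : Prop :=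
  A.Infinite ∧ ∀ C ⊆ A, C.Infinite → TuringReducible (chi A : ℕ →. ℕ) (chi C : ℕ →. ℕ)

theorem result : ∃ A : Set ℕ, Introreducible A ∧
    ¬ ∃ n : ℕ, ∃ B : Fin (n + 1) → Set ℕ, (∀ i, UniformlyIntroreducible (B i)) ∧ A = ⋃ i, B i := by
  classical
  obtain ⟨X, hX⟩ := main_thm (fun (Φ : TuringOp) (C : Set ℕ) => {e | 1 ∈ Φ.eval (chi C) e}) (by
    intro Φ C e he
    obtain ⟨u, hu⟩ := use (chi C) Φ e 1 he
    refine ⟨u, fun C' hC' => hu _ ?_⟩
    intro k hk
    by_cases hkC : k ∈ C
    · rw [chi_of_mem hkC, chi_of_mem ((hC' k hk).2 hkC)]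
    · rw [chi_of_not_mem hkC, chi_of_not_mem (fun h => hkC ((hC' k hk).1 h))])
  refine ⟨AX X, ⟨AX_infinite X, fun C hC hinf => AX_introreducible X hC hinf⟩, ?_⟩
  rintro ⟨n, B, hUI, hB⟩
  choose hBinf Φ hΦ using hUI
  have hBsub : ∀ j, B j ⊆ AX X := fun j => by rw [hB]; exact Set.subset_iUnion B j
  choose i hi R hR hRinf hlab h using fun N => hX (List.ofFn Φ) N
  -- for every `N` some piece meets `R N` in an infinite set
  have hj : ∀ N, ∃ j, (B j ∩ R N).Infinite := by
    intro N
    by_contra hcon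
    push Not at hcon
    apply hRinf N
    have : R N ⊆ ⋃ j, (B j ∩ R N) := by
      intro e he
      have h1 := hR N he
      rw [hB] at h1
      obtain ⟨j, hj⟩ := Set.mem_iUnion.1 h1
      exact Set.mem_iUnion.2 ⟨j, hj, he⟩
    exact (Set.finite_iUnion hcon).subset this
  choose J hJ using hj
  -- one piece works for infinitely many `N`
  obtain ⟨j, hjinf⟩ := Finite.exists_infinite_fiber J
  have hjinf' : (J ⁻¹' {j}).Infinite := Set.infinite_coe_iff.1 hjinf
  obtain ⟨N1, hN1⟩ := hjinf'.nonempty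
  obtain ⟨N2, hN2, hlt⟩ := hjinf'.exists_gt (i N1)
  rw [Set.mem_preimage, Set.mem_singleton_iff] at hN1 hN2
  have hinf1 := hJ N1
  have hinf2 := hJ N2
  rw [hN1] at hinf1
  rw [hN2] at hinf2
  have hi2 : i N1 < i N2 := lt_of_lt_of_le hlt (hi N2)
  have hout : {e | 1 ∈ (Φ j).eval (chi (B j ∩ R N1)) e} = B j := by
    ext e
    have h1 := hΦ j (B j ∩ R N1) Set.inter_subset_left hinf1 e
    rw [Set.mem_ofPred_eq, h1, Part.mem_some_iff]
    rw [eq_comm, chi_eq_one]
  rcases h N1 (Φ j) (List.mem_ofFn.2 ⟨j, rfl⟩) (B j ∩ R N1) Set.inter_subset_right hinf1 with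
    ⟨y, y', hne, ⟨e, he, hd⟩, ⟨e', he', hd'⟩⟩ | hno
  · rw [hout] at he he'
    exact hne ((dec_of_mem (hBsub j he) hd).trans (dec_of_mem (hBsub j he') hd').symm)
  · apply hno
    rw [hout]
    obtain ⟨e, heB, heR⟩ := hinf2.nonempty
    obtain ⟨i', n', hin, rfl⟩ := hBsub j heB
    have := hlab N2 _ heR
    rw [Nat.unpair_pair] at this
    simp only at this
    subst this
    exact ⟨_, heB, dec_mk X (by omega) (by omega)⟩

end Pool.Agent.Results.MP_4a6649_lc.NotFiniteUnion
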